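import Pool.Agent.Work.MP_92a29d_co_h45.six.Side

/-!
One coded class and three classes with `2 ≤ m`: codes on both sides.
-/

namespace Pool.Agent.Work.MP_92a29d_co.Place

open SimpleGraph Finset Pool.Agent.Work.MP_92a29d_co_h45

variable {V : Type*} [Fintype V] [DecidableEq V]

/-- the vertices with digit `p` -/
def sd (c0 : CD) (X : ℕ → V → ℕ) (p : ℕ) : Finset V := univ.filter fun u => c0.d (X 0 u) = p

omit [DecidableEq V] in
theorem mem_sd {c0 : CD} {X : ℕ → V → ℕ} {p : ℕ} {u : V} :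
    u ∈ sd c0 X p ↔ c0.d (X 0 u) = p := by
  unfold sd
  rw [mem_filter]
  exact ⟨fun h => h.2, fun h => ⟨mem_univ _, h⟩⟩

/-- permutation of the classes -/
theorem Conf.permute {c0 : CD} {m : Fin 4 → ℕ} {rel : List (ℕ × ℕ × ℕ)}
    {G : Fin 4 → SimpleGraph V} {X : ℕ → V → ℕ} (h : Conf [c0] m rel G X)
    (σ : Equiv.Perm (Fin 4)) (h0 : σ 0 = 0) (hm : ∀ i, m (σ i) = m i) :
    Conf [c0] m rel (fun i => G (σ i)) X := by
  refine ⟨⟨?_, ?_⟩, ?_, h.lt, h.bds, h.rel⟩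
  · intro u v huv
    obtain ⟨i, hi⟩ := h.cover.cov u v huv
    refine ⟨σ.symm i, ?_⟩
    rw [Equiv.apply_symm_apply]
    exact hi
  · intro i v p hp
    have := h.cover.girth (σ i) v p hp
    rw [hm] at this
    exact this
  · intro i hi u w huw
    have hi' : i.val < 1 := hi
    have : i = 0 := Fin.ext (by simpa using hi')
    subst this
    rw [h0] at huw
    exact h.adj 0 hi u w huw

/-- general assumptions -/
structure OneOK (c0 : CD) (m : Fin 4 → ℕ) (G : Fin 4 → SimpleGraph V) (X : ℕ → V → ℕ) : Prop where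
  conf : Conf [c0] m [] G X
  dig : ∀ u, c0.d (X 0 u) < 3
  ind : ∀ p, p = 1 ∨ p = 2 → ∀ u ∈ sd c0 X p, ∀ w ∈ sd c0 X p, ¬ (G 0).Adj u w
  one : (univ.filter fun u => c0.d (X 0 u) = 0).card = 1
  c8 : ∀ p, p = 1 ∨ p = 2 → (sd c0 X p).card = 8

theorem Conf.oneOK (hV : Fintype.card V = 17) {c0 : CD} {m : Fin 4 → ℕ}
    {G : Fin 4 → SimpleGraph V} {X : ℕ → V → ℕ} (h : Conf [c0] m [] G X)
    (hα : AlphaEight (G 0)) (hdig : ∀ a < c0.n, c0.d a < 3)
    (hi1 : indepD c0 1 = true) (hi2 : indepD c0 2 = true)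
    (hc0 : (univ.filter fun u => c0.d (X 0 u) = 0).card = 1) : OneOK c0 m G X := by
  classical
  have hl0 : (0 : Fin 4).val < [c0].length := by simp
  have hlt : ∀ u, X 0 u < c0.n := fun u => h.lt 0 (by simp) u
  have hind : ∀ p, p = 1 ∨ p = 2 → ∀ u ∈ sd c0 X p, ∀ w ∈ sd c0 X p, ¬ (G 0).Adj u w := by
    intro p hp u hu w hw
    refine h.indep (i := 0) hl0 (d := p) ?_ (mem_sd.1 hu) (mem_sd.1 hw)
    rcases hp with rfl | rfl
    · exact hi1
    · exact hi2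
  refine ⟨h, fun u => hdig _ (hlt u), hind, hc0, ?_⟩
  have h1 : (sd c0 X 1).card ≤ 8 := hα _ (hind 1 (Or.inl rfl))
  have h2 : (sd c0 X 2).card ≤ 8 := hα _ (hind 2 (Or.inr rfl))
  have h3 := Finset.card_eq_sum_card_fiberwise (s := (univ : Finset V))
    (t := range 3) (f := fun u => c0.d (X 0 u))
    (fun u _ => by simpa using hdig _ (hlt u))
  rw [Finset.card_univ, hV, Finset.sum_range_succ, Finset.sum_range_succ,
    Finset.sum_range_succ, Finset.sum_range_zero, hc0] at h3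
  change 17 = 0 + 1 + (sd c0 X 1).card + (sd c0 X 2).card at h3
  rintro p (rfl | rfl) <;> omega

/-- the codes on one side -/
theorem OneOK.side {c0 : CD} {m : Fin 4 → ℕ} {G : Fin 4 → SimpleGraph V} {X : ℕ → V → ℕ}
    (h : OneOK c0 m G X) (hm : ∀ i, i ≠ 0 → 2 ≤ m i) {k a b : Fin 4}
    (hk : ∀ x : Fin 4, x = 0 ∨ x = k ∨ x = a ∨ x = b) (ha : a ≠ 0) (hb0 : b ≠ 0)
    {p : ℕ} (hp : p = 1 ∨ p = 2)
    (hb : ∃ b : V → Bool, ∀ u ∈ sd c0 X p, ∀ w ∈ sd c0 X p, (G k).Adj u w → b u ≠ b w)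
    (wt : V → ℕ) : ∃ s x y, Side (G k) (G a) (G b) (sd c0 X p) wt s x y := by
  have h3 : ∀ i : Fin 4, i ≠ 0 → ∀ v (q : (G i).Walk v v), Odd q.length →
      2 * 1 + 1 < q.length := by
    intro i hi v q hq
    have := h.conf.cover.girth i v q hq
    have := hm i hi
    omega
  refine exists_side (G k) (G a) (G b) _ (h.c8 p hp) hb ?_ (h3 a ha) (h3 b hb0) ?_ wt
  · intro T hT hi
    have := hm b hb0
    exact pair_bound h.conf.cover 0 k a b hk (hm a ha) (by omega) T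
      (fun u hu w hw => h.ind p hp u (hT hu) w (hT hw)) hi
  · intro u hu w hw huw
    obtain ⟨i, hi⟩ := h.conf.cover.cov u w huw
    rcases hk i with rfl | rfl | rfl | rfl
    · exact absurd hi (h.ind p hp u hu w hw)
    · exact Or.inl hi
    · exact Or.inr (Or.inl hi)
    · exact Or.inr (Or.inr hi)

theorem OneOK.permute {c0 : CD} {m : Fin 4 → ℕ} {G : Fin 4 → SimpleGraph V} {X : ℕ → V → ℕ}
    (h : OneOK c0 m G X) (σ : Equiv.Perm (Fin 4)) (h0 : σ 0 = 0) (hm : ∀ i, m (σ i) = m i) :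
    OneOK c0 m (fun i => G (σ i)) X := by
  refine ⟨h.conf.permute σ h0 hm, h.dig, ?_, h.one, h.c8⟩
  intro p hp u hu w hw
  simp only [h0]
  exact h.ind p hp u hu w hw

/-- **Codes on both sides**: either the same class is bipartite on both sides or two different
ones are -/
theorem OneOK.sides {c0 : CD} {m : Fin 4 → ℕ} {G : Fin 4 → SimpleGraph V} {X : ℕ → V → ℕ}
    (h : OneOK c0 m G X) (hm : ∀ i, i ≠ 0 → 2 ≤ m i) (hmm : ∀ i j, i ≠ 0 → j ≠ 0 → m i = m j)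
    (wt : V → ℕ) :
    (∃ G', OneOK c0 m G' X ∧ (∃ s x y, Side (G' 1) (G' 2) (G' 3) (sd c0 X 1) wt s x y) ∧
      (∃ s x y, Side (G' 1) (G' 2) (G' 3) (sd c0 X 2) wt s x y)) ∨
    (∃ G', OneOK c0 m G' X ∧ (∃ s x y, Side (G' 1) (G' 2) (G' 3) (sd c0 X 1) wt s x y) ∧
      (∃ s x y, Side (G' 2) (G' 1) (G' 3) (sd c0 X 2) wt s x y)) := by
  obtain ⟨k1, hk1, hb1⟩ := exists_bip8 h.conf.cover hm _ (h.c8 1 (Or.inl rfl))
    (h.ind 1 (Or.inl rfl))
  obtain ⟨k2, hk2, hb2⟩ := exists_bip8 h.conf.cover hm _ (h.c8 2 (Or.inr rfl))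
    (h.ind 2 (Or.inr rfl))
  have hperm : ∀ σ : Equiv.Perm (Fin 4), σ 0 = 0 → ∀ i, m (σ i) = m i := by
    intro σ h0 i
    by_cases hi : i = 0
    · rw [hi, h0]
    · refine hmm _ _ ?_ hi
      intro h1
      rw [← h0] at h1
      exact hi (σ.injective h1)
  by_cases hk : k1 = k2
  · left
    subst hk
    have h1 : ∀ k : Fin 4, k ≠ 0 → ∃ σ : Equiv.Perm (Fin 4), σ 0 = 0 ∧ σ 1 = k := by decide
    obtain ⟨σ, h0, h1⟩ := h1 k1 hk1
    have h' := h.permute σ h0 (hperm σ h0)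
    have hc : ∀ x : Fin 4, x = 0 ∨ x = 1 ∨ x = 2 ∨ x = 3 := by decide
    rw [← h1] at hb1 hb2
    exact ⟨_, h', h'.side hm hc (by decide) (by decide) (Or.inl rfl) hb1 wt,
      h'.side hm hc (by decide) (by decide) (Or.inr rfl) hb2 wt⟩
  · right
    have h1 : ∀ k l : Fin 4, k ≠ 0 → l ≠ 0 → k ≠ l →
      ∃ σ : Equiv.Perm (Fin 4), σ 0 = 0 ∧ σ 1 = k ∧ σ 2 = l := by decide
    obtain ⟨σ, h0, h1, h2⟩ := h1 k1 k2 hk1 hk2 hk
    have h' := h.permute σ h0 (hperm σ h0)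
    have hc : ∀ x : Fin 4, x = 0 ∨ x = 1 ∨ x = 2 ∨ x = 3 := by decide
    have hc' : ∀ x : Fin 4, x = 0 ∨ x = 2 ∨ x = 1 ∨ x = 3 := by decide
    rw [← h1] at hb1
    rw [← h2] at hb2
    exact ⟨_, h', h'.side hm hc (by decide) (by decide) (Or.inl rfl) hb1 wt,
      h'.side hm hc' (by decide) (by decide) (Or.inr rfl) hb2 wt⟩

/-- a digit which is `a` on the side 1 and `b` on the side 2 -/
def pick (c0 : CD) (X : ℕ → V → ℕ) (a b : V → ℕ) (u : V) : ℕ :=
  if c0.d (X 0 u) = 1 then a u else if c0.d (X 0 u) = 2 then b u else 0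

omit [Fintype V] [DecidableEq V] in
theorem pick_one {c0 : CD} {X : ℕ → V → ℕ} {a b : V → ℕ} {u : V} (h : c0.d (X 0 u) = 1) :
    pick c0 X a b u = a u := if_pos h

omit [Fintype V] [DecidableEq V] in
theorem pick_two {c0 : CD} {X : ℕ → V → ℕ} {a b : V → ℕ} {u : V} (h : c0.d (X 0 u) = 2) :
    pick c0 X a b u = b u := by
  unfold pick
  rw [if_neg (by omega), if_pos h]

omit [Fintype V] [DecidableEq V] in
theorem pick_zero {c0 : CD} {X : ℕ → V → ℕ} {a b : V → ℕ} {u : V} (h : c0.d (X 0 u) = 0) :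
    pick c0 X a b u = 0 := by
  unfold pick
  rw [if_neg (by omega), if_neg (by omega)]

omit [Fintype V] [DecidableEq V] in
theorem pick_lt {c0 : CD} {X : ℕ → V → ℕ} {a b : V → ℕ} {u : V} (ha : a u < 3) (hb : b u < 3) :
    pick c0 X a b u < 3 := by
  unfold pick
  split
  · exact ha
  · split
    · exact hb
    · norm_num

end Pool.Agent.Work.MP_92a29d_co.Place
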