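import Pool.Agent.Work.MP_92a29d_co_h36.Assembly
import Pool.Agent.Work.MP_92a29d_co_h45.six.G6222A
import Pool.Agent.Work.MP_92a29d_co_h45.six.G6222B

/-!
(6,2,2,2): reduction to two instances with one coded class.
-/

namespace Pool.Agent.Work.MP_92a29d_co.Place

open SimpleGraph Finset Pool.Agent.Work.MP_92a29d_co_h45

variable {V : Type*} [Fintype V] [DecidableEq V]

theorem tuple_6222 : Tuple4 6 2 2 2 :=
  ⟨by norm_num, by norm_num, by norm_num, by norm_num, by unfold Good3; omega⟩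

theorem g6222_c0_eq : g6222B_c0 = g6222A_c0 := by decide +kernel

theorem g6222_zero : ∀ a < 15, g6222A_c0.d a = 0 → a = 0 := by decide

theorem g6222_bd : ∀ a < 15, g6222A_c0.lo a = (if a = 7 ∨ a = 8 then 2 else 1) ∧
    g6222A_c0.hi a = if a = 7 ∨ a = 8 then 2 else 1 := by decide

omit [DecidableEq V] in
theorem card_zero_g6222 {X : V → ℕ} {G : SimpleGraph V} (h : ClsOK g6222A_c0 G X) :
    (univ.filter fun u => g6222A_c0.d (X u) = 0).card = 1 := by
  have e1 : (univ.filter fun u => g6222A_c0.d (X u) = 0) = univ.filter fun u => X u = 0 := by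
    apply Finset.filter_congr
    intro u _
    constructor
    · intro h1
      exact g6222_zero _ (h.lt u) h1
    · intro h1
      rw [h1]
      rfl
  rw [e1]
  have h2 := h.bds 0 (by decide)
  have h3 : g6222A_c0.lo 0 = 1 := by decide
  have h4 : g6222A_c0.hi 0 = 1 := by decide
  rw [h3, h4] at h2
  omega

/-- the class data, counted from the level `j + 6` -/
theorem clsOK_6222 {G : SimpleGraph V} {f : V → ZMod (2 * 6 + 3)} (hf : CycHom G (2 * 6 + 3) f)
    {j : ZMod (2 * 6 + 3)} (h1 : ∀ s : ℕ, s < 13 → lsize f (j + s) = 1)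
    (h2 : lsize f (j + 13) = 2) (h3 : lsize f (j + 14) = 2) :
    ClsOK g6222A_c0 G (fun u => (f u - (j + (6 : ℕ))).val) := by
  refine clsOK_level hf (j + (6 : ℕ)) rfl rfl ?_
  intro a ha
  have ha' : a < 15 := ha
  rw [(g6222_bd a ha').1, (g6222_bd a ha').2]
  have h15 : ((15 : ℕ) : ZMod (2 * 6 + 3)) = 0 := ZMod.natCast_self _
  have e : lsize f (j + ((6 : ℕ) : ZMod (2 * 6 + 3)) + (a : ZMod (2 * 6 + 3))) =
      if a = 7 ∨ a = 8 then 2 else 1 := by
    rcases Nat.lt_or_ge (6 + a) 15 with h | h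
    · have e1 : j + ((6 : ℕ) : ZMod (2 * 6 + 3)) + (a : ZMod (2 * 6 + 3)) =
          j + ((6 + a : ℕ) : ZMod (2 * 6 + 3)) := by
        rw [Nat.cast_add]
        ring
      rw [e1]
      split
      · rename_i h4
        rcases h4 with rfl | rfl
        · exact h2
        · exact h3
      · exact h1 _ (by omega)
    · obtain ⟨b, hb⟩ := Nat.exists_eq_add_of_le h
      have e1 : j + ((6 : ℕ) : ZMod (2 * 6 + 3)) + (a : ZMod (2 * 6 + 3)) =
          j + (b : ZMod (2 * 6 + 3)) := by
        rw [add_assoc, ← Nat.cast_add, hb, Nat.cast_add, h15, zero_add]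
      rw [e1, if_neg (by omega)]
      exact h1 _ (by omega)
  rw [e]
  exact ⟨le_rfl, le_rfl⟩

/-- **(6,2,2,2)**, from the two finite computations -/
theorem case_6222 (hV : Fintype.card V = 17)
    {G : Fin 4 → SimpleGraph V} (hcov : Cover V ![6, 2, 2, 2] G)
    (hA : ∀ M, ¬ IsModelX g6222A_J0 M) (hB : ∀ M, ¬ IsModelX g6222B_J0 M) : False := by
  have hα := tuple_6222.alphaEight hcov
  obtain ⟨f0, h0⟩ := cycHom_of_four_le hV (m := 6) (by norm_num) (hα 0)
    (fun v p hp => hcov.girth 0 v p hp)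
  obtain ⟨j, a1, a2, a3⟩ := profile_six hV h0 (hα 0)
  have hc0 := clsOK_6222 h0 a1 a2 a3
  have hconf : Conf [g6222A_c0] ![6, 2, 2, 2] [] G
      (fun _ u => (f0 u - (j + ((6 : ℕ) : ZMod (2 * 6 + 3)))).val) := by
    refine Conf.of_classes hcov (by simp) ?_ (by simp)
    intro i hi
    have hi' : i.val < 1 := hi
    have : i = 0 := Fin.ext (by simpa using hi')
    subst this
    exact hc0
  have hok := hconf.oneOK hV (hα 0) (by decide) (by decide) (by decide) (card_zero_g6222 hc0)
  rcases hok.sides (by decide) (by decide)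
    (fun u => wtD g6222A_c0.n false (f0 u - (j + ((6 : ℕ) : ZMod (2 * 6 + 3)))).val) with
    ⟨G', h', s1, s2⟩ | ⟨G', h', s1, s2⟩
  · obtain ⟨Is, hIs, J, hJ, M, hM⟩ := h'.exists_instA g6222A_fam hV s1 s2
    rw [List.mem_singleton] at hIs
    subst hIs
    rw [List.mem_singleton] at hJ
    subst hJ
    exact hA M hM
  · have hfam := g6222B_fam
    rw [g6222_c0_eq] at hfam
    obtain ⟨Is, hIs, J, hJ, M, hM⟩ := h'.exists_instB hfam hV s1 s2
    rw [List.mem_singleton] at hIs
    subst hIs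
    rw [List.mem_singleton] at hJ
    subst hJ
    exact hB M hM

end Pool.Agent.Work.MP_92a29d_co.Place
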