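import Pool.Agent.Work.MP_92a29d_co_h45.six.Both

/-!
The same class is bipartite on both sides.
-/

namespace Pool.Agent.Work.MP_92a29d_co.Place

open SimpleGraph Finset Pool.Agent.Work.MP_92a29d_co_h45

variable {V : Type*} [Fintype V] [DecidableEq V]

/-- digits, the same class is bipartite on both sides -/
def eA (c0 : CD) (X : ℕ → V → ℕ) (s1 x1 y1 s2 x2 y2 : V → ℕ) : ℕ → V → ℕ
  | 0 => fun u => c0.d (X 0 u)
  | 1 => pick c0 X s1 s2
  | 2 => pick c0 X x1 x2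
  | 3 => pick c0 X y1 y2
  | _ => fun _ => 0

theorem OneOK.locOne {c0 : CD} {m : Fin 4 → ℕ} {G : Fin 4 → SimpleGraph V} {X : ℕ → V → ℕ}
    (h : OneOK c0 m G X) {wt : ℕ → ℕ} {s1 x1 y1 s2 x2 y2 : V → ℕ}
    (h1 : Side (G 1) (G 2) (G 3) (sd c0 X 1) (fun u => wt (X 0 u)) s1 x1 y1)
    (h2 : Side (G 1) (G 2) (G 3) (sd c0 X 2) (fun u => wt (X 0 u)) s2 x2 y2) :
    LocOne c0 G X wt (eA c0 X s1 x1 y1 s2 x2 y2) := by
  set e := eA c0 X s1 x1 y1 s2 x2 y2 with he
  have e0 : ∀ u, e 0 u = c0.d (X 0 u) := fun _ => rfl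
  have hor : ∀ u, e 0 u ≠ 0 → e 0 u = 1 ∨ e 0 u = 2 := by
    intro u hu
    have := h.dig u
    rw [← e0] at this
    omega
  have p1 : ∀ u, e 0 u = 1 → u ∈ sd c0 X 1 ∧ e 1 u = s1 u ∧ e 2 u = x1 u ∧ e 3 u = y1 u :=
    fun u hu => ⟨mem_sd.2 hu, pick_one hu, pick_one hu, pick_one hu⟩
  have p2 : ∀ u, e 0 u = 2 → u ∈ sd c0 X 2 ∧ e 1 u = s2 u ∧ e 2 u = x2 u ∧ e 3 u = y2 u :=
    fun u hu => ⟨mem_sd.2 hu, pick_two hu, pick_two hu, pick_two hu⟩
  have p0 : ∀ u, e 0 u = 0 → e 1 u = 0 ∧ e 2 u = 0 ∧ e 3 u = 0 :=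
    fun u hu => ⟨pick_zero hu, pick_zero hu, pick_zero hu⟩
  have hval : ∀ u, e 0 u ≠ 0 → (e 1 u = 1 ∨ e 1 u = 2) ∧ (e 2 u = 1 ∨ e 2 u = 2) ∧
      (e 3 u = 1 ∨ e 3 u = 2) := by
    intro u hu
    rcases hor u hu with hu | hu
    · obtain ⟨_, a1, a2, a3⟩ := p1 u hu
      rw [a1, a2, a3]
      exact ⟨h1.s12 u, h1.x12 u, h1.y12 u⟩
    · obtain ⟨_, a1, a2, a3⟩ := p2 u hu
      rw [a1, a2, a3]
      exact ⟨h2.s12 u, h2.x12 u, h2.y12 u⟩
  refine ⟨e0, ?_, ?_, ?_, ?_, ?_, ?_, ?_, h.one, h.c8, ?_, ?_, ?_⟩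
  · intro i hi u
    by_cases hu : e 0 u = 0
    · obtain ⟨a1, a2, a3⟩ := p0 u hu
      interval_cases i <;> omega
    · obtain ⟨a1, a2, a3⟩ := hval u hu
      have := hor u hu
      interval_cases i <;> omega
  · intro i hi1 hi4 u
    by_cases hu : e 0 u = 0
    · obtain ⟨a1, a2, a3⟩ := p0 u hu
      interval_cases i <;> omega
    · obtain ⟨a1, a2, a3⟩ := hval u hu
      interval_cases i <;> omega
  · intro u w hu huw
    exact h.ind _ (hor u hu) u (mem_sd.2 rfl) w (mem_sd.2 huw.symm)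
  · intro u w hu huw q1
    rcases hor u hu with hu | hu
    · obtain ⟨mu, a1, a2, a3⟩ := p1 u hu
      obtain ⟨mw, b1, b2, b3⟩ := p1 w (huw.symm.trans hu)
      rw [a1, b1] at q1
      exact h1.rs u mu w mw q1
    · obtain ⟨mu, a1, a2, a3⟩ := p2 u hu
      obtain ⟨mw, b1, b2, b3⟩ := p2 w (huw.symm.trans hu)
      rw [a1, b1] at q1
      exact h2.rs u mu w mw q1
  · intro u w hu huw q1 q2
    rcases hor u hu with hu | hu
    · obtain ⟨mu, a1, a2, a3⟩ := p1 u hu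
      obtain ⟨mw, b1, b2, b3⟩ := p1 w (huw.symm.trans hu)
      rw [a1, b1] at q1
      rw [a2, b2] at q2
      exact h1.rx u mu w mw q1 q2
    · obtain ⟨mu, a1, a2, a3⟩ := p2 u hu
      obtain ⟨mw, b1, b2, b3⟩ := p2 w (huw.symm.trans hu)
      rw [a1, b1] at q1
      rw [a2, b2] at q2
      exact h2.rx u mu w mw q1 q2
  · intro u w hu huw q1 q2
    rcases hor u hu with hu | hu
    · obtain ⟨mu, a1, a2, a3⟩ := p1 u hu
      obtain ⟨mw, b1, b2, b3⟩ := p1 w (huw.symm.trans hu)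
      rw [a1, b1] at q1
      rw [a3, b3] at q2
      exact h1.ry u mu w mw q1 q2
    · obtain ⟨mu, a1, a2, a3⟩ := p2 u hu
      obtain ⟨mw, b1, b2, b3⟩ := p2 w (huw.symm.trans hu)
      rw [a1, b1] at q1
      rw [a3, b3] at q2
      exact h2.ry u mu w mw q1 q2
  · intro u w hu huw q1 q2 q3
    rcases hor u hu with hu | hu
    · obtain ⟨mu, a1, a2, a3⟩ := p1 u hu
      obtain ⟨mw, b1, b2, b3⟩ := p1 w (huw.symm.trans hu)
      rw [a1, b1] at q1
      rw [a2, b2] at q2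
      rw [a3, b3] at q3
      exact h1.inj u mu w mw q1 q2 q3
    · obtain ⟨mu, a1, a2, a3⟩ := p2 u hu
      obtain ⟨mw, b1, b2, b3⟩ := p2 w (huw.symm.trans hu)
      rw [a1, b1] at q1
      rw [a2, b2] at q2
      rw [a3, b3] at q3
      exact h2.inj u mu w mw q1 q2 q3
  · intro p hp s hs
    rcases hp with rfl | rfl
    · rw [← h1.c4 s hs]
      congr 1
      ext u
      rw [mem_filter, mem_filter]
      constructor
      · rintro ⟨_, a, b⟩
        obtain ⟨mu, a1, _⟩ := p1 u a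
        exact ⟨mu, by rw [← a1, b]⟩
      · rintro ⟨mu, b⟩
        have a : e 0 u = 1 := mem_sd.1 mu
        obtain ⟨_, a1, _⟩ := p1 u a
        exact ⟨mem_univ _, a, by rw [a1, b]⟩
    · rw [← h2.c4 s hs]
      congr 1
      ext u
      rw [mem_filter, mem_filter]
      constructor
      · rintro ⟨_, a, b⟩
        obtain ⟨mu, a1, _⟩ := p2 u a
        exact ⟨mu, by rw [← a1, b]⟩
      · rintro ⟨mu, b⟩
        have a : e 0 u = 2 := mem_sd.1 mu
        obtain ⟨_, a1, _⟩ := p2 u a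
        exact ⟨mem_univ _, a, by rw [a1, b]⟩
  · intro u w hu huw q1 q2 q3
    rcases hor u hu with hu | hu
    · obtain ⟨mu, a1, a2, a3⟩ := p1 u hu
      obtain ⟨mw, b1, b2, b3⟩ := p1 w (huw.symm.trans hu)
      rw [a1, b1] at q1
      rw [a2] at q2
      rw [a3] at q3
      exact h1.o1 u mu w mw q1 q2 q3
    · obtain ⟨mu, a1, a2, a3⟩ := p2 u hu
      obtain ⟨mw, b1, b2, b3⟩ := p2 w (huw.symm.trans hu)
      rw [a1, b1] at q1
      rw [a2] at q2
      rw [a3] at q3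
      exact h2.o1 u mu w mw q1 q2 q3
  · intro u w hu huw q1 q2 q3
    rcases hor u hu with hu | hu
    · obtain ⟨mu, a1, a2, a3⟩ := p1 u hu
      obtain ⟨mw, b1, b2, b3⟩ := p1 w (huw.symm.trans hu)
      rw [a1] at q1
      rw [a2] at q2
      rw [a3] at q3
      exact h1.o2 u mu w mw q1 q2 q3
    · obtain ⟨mu, a1, a2, a3⟩ := p2 u hu
      obtain ⟨mw, b1, b2, b3⟩ := p2 w (huw.symm.trans hu)
      rw [a1] at q1
      rw [a2] at q2
      rw [a3] at q3
      exact h2.o2 u mu w mw q1 q2 q3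

/-- all checks for a family with one coded class, the same class bipartite on both sides -/
def famA (T : Spec2) (c0 : CD) (m : Fin 4 → ℕ) (swap : Bool) (F : List Fact)
    (inst : List (List InstX)) : Bool :=
  famD T [c0] m [] 3 4 oneR F inst && (T.pats.all (fun x => decide (x ∈ onePats)) &&
  (F.all (oneF false swap) && (oddB c0 && (!swap || Nat.beq (m 2) (m 3)))))

theorem OneOK.exists_instA {T : Spec2} {c0 : CD} {m : Fin 4 → ℕ} {swap : Bool}
    {F : List Fact} {inst : List (List InstX)} (hF : famA T c0 m swap F inst = true)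
    (hV : Fintype.card V = 17) {G : Fin 4 → SimpleGraph V} {X : ℕ → V → ℕ}
    (h : OneOK c0 m G X)
    (h1 : ∃ s x y, Side (G 1) (G 2) (G 3) (sd c0 X 1) (fun u => wtD c0.n false (X 0 u)) s x y)
    (h2 : ∃ s x y, Side (G 1) (G 2) (G 3) (sd c0 X 2) (fun u => wtD c0.n false (X 0 u)) s x y) :
    ∃ Is ∈ inst, ∃ J ∈ Is, ∃ M, IsModelX J M := by
  unfold famA at hF
  simp only [Bool.and_eq_true, Bool.or_eq_true, Bool.not_eq_true', Nat.beq_eq] at hF
  obtain ⟨hF, hpats, hfact, hodd, hsw⟩ := hF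
  obtain ⟨s1, x1, y1, h1⟩ := h1
  obtain ⟨s2, x2, y2, h2⟩ := h2
  have he := h.locOne (wt := wtD c0.n false) h1 h2
  rw [List.all_eq_true] at hpats
  cases swap with
  | false =>
    refine DConf.exists_inst hF hV (LocOneE.dconf he h.conf hodd (swap := false)
      (fun h => absurd h Bool.false_ne_true) hfact) ?_
    intro x hx
    exact he.pats hV x (of_decide_eq_true (hpats x hx))
  | true =>
    have hm : m 2 = m 3 := by
      rcases hsw with h | h
      · exact absurd h.symm Bool.false_ne_true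
      · exact h
    obtain ⟨G', e', hc', hE⟩ := he.exists_edge h.conf hm
    refine DConf.exists_inst hF hV (LocOneE.dconf hE.loc hc' hodd (swap := true)
      (fun _ => hE) hfact) ?_
    intro x hx
    exact hE.loc.pats hV x (of_decide_eq_true (hpats x hx))

end Pool.Agent.Work.MP_92a29d_co.Place
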