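import Pool.Agent.Work.MP_92a29d_co_h45.six.Both

/-!
Different classes are bipartite on the two sides.
-/

namespace Pool.Agent.Work.MP_92a29d_co.Place

open SimpleGraph Finset Pool.Agent.Work.MP_92a29d_co_h45

variable {V : Type*} [Fintype V] [DecidableEq V]

/-- digits: the class 1 is bipartite on the side 1, the class 2 on the side 2 -/
def eB (c0 : CD) (X : ℕ → V → ℕ) (s1 x1 y1 s2 x2 y2 : V → ℕ) : ℕ → V → ℕ
  | 0 => fun u => c0.d (X 0 u)
  | 1 => pick c0 X s1 (fun _ => 0)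
  | 2 => pick c0 X (fun _ => 0) s2
  | 3 => pick c0 X x1 x2
  | 4 => pick c0 X y1 y2
  | _ => fun _ => 0

/-- the rules -/
def twoR : List (Fin 4 × List ℕ) :=
  [(1, [0, 1]), (2, [0, 2]), (2, [0, 1, 3]), (1, [0, 2, 3]), (3, [0, 1, 4]), (3, [0, 2, 4])]

/-- check of the facts -/
def twoF : Fact → Bool
  | .ord i c c' => Nat.beq i 0 && (Nat.beq (Place.dig 3 5 c 3) 1 &&
      (Nat.beq (Place.dig 3 5 c 4) 1 &&
      ((Nat.beq (Place.dig 3 5 c 0) 1 && (Nat.beq (Place.dig 3 5 c' 0) 1 &&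
        (Nat.beq (Place.dig 3 5 c 1) (Place.dig 3 5 c' 1) || Nat.beq (Place.dig 3 5 c 1) 1))) ||
      (Nat.beq (Place.dig 3 5 c 0) 2 && (Nat.beq (Place.dig 3 5 c' 0) 2 &&
        (Nat.beq (Place.dig 3 5 c 2) (Place.dig 3 5 c' 2) || Nat.beq (Place.dig 3 5 c 2) 1))))))
  | _ => false

/-- the constraints for the numbers of vertices -/
def twoPats : List (List (ℕ × ℕ) × ℕ × ℕ) :=
  ([], 17, 17) :: ([(0, 0)], 1, 1) :: (([1, 2].map fun p => ([(0, p)], 8, 8)) ++
    (([1, 2].flatMap fun p => [1, 2].map fun s => ([(0, p), (p, s)], 4, 4)) ++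
    (([1, 2].flatMap fun p => [1, 2].flatMap fun s => [1, 2].flatMap fun b => [1, 2].map fun t =>
      ([(0, p), (p, s), (3, b), (4, t)], 0, 1)) ++
    (([1, 2, 3, 4].flatMap fun i => [1, 2].map fun d => ([(0, 0), (i, d)], 0, 0)) ++
    (([1, 2].flatMap fun p => [p, 3, 4].map fun i => ([(0, p), (i, 0)], 0, 0)) ++
    ([1, 2].flatMap fun p => [1, 2].map fun d => ([(0, p), (3 - p, d)], 0, 0)))))))

section

variable {c0 : CD} {m : Fin 4 → ℕ} {G : Fin 4 → SimpleGraph V} {X : ℕ → V → ℕ}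
  {wt : ℕ → ℕ} {s1 x1 y1 s2 x2 y2 : V → ℕ}

omit [DecidableEq V] in
theorem eB_one {u : V} (hu : eB c0 X s1 x1 y1 s2 x2 y2 0 u = 1) :
    u ∈ sd c0 X 1 ∧ eB c0 X s1 x1 y1 s2 x2 y2 1 u = s1 u ∧
      eB c0 X s1 x1 y1 s2 x2 y2 2 u = 0 ∧ eB c0 X s1 x1 y1 s2 x2 y2 3 u = x1 u ∧
      eB c0 X s1 x1 y1 s2 x2 y2 4 u = y1 u :=
  ⟨mem_sd.2 hu, pick_one (a := s1) (b := fun _ => 0) hu, pick_one (a := fun _ => 0) (b := s2) hu,
    pick_one hu, pick_one hu⟩

omit [DecidableEq V] in
theorem eB_two {u : V} (hu : eB c0 X s1 x1 y1 s2 x2 y2 0 u = 2) :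
    u ∈ sd c0 X 2 ∧ eB c0 X s1 x1 y1 s2 x2 y2 1 u = 0 ∧
      eB c0 X s1 x1 y1 s2 x2 y2 2 u = s2 u ∧ eB c0 X s1 x1 y1 s2 x2 y2 3 u = x2 u ∧
      eB c0 X s1 x1 y1 s2 x2 y2 4 u = y2 u :=
  ⟨mem_sd.2 hu, pick_two (a := s1) (b := fun _ => 0) hu, pick_two (a := fun _ => 0) (b := s2) hu,
    pick_two hu, pick_two hu⟩

omit [Fintype V] [DecidableEq V] in
theorem eB_zero {u : V} (hu : eB c0 X s1 x1 y1 s2 x2 y2 0 u = 0) :
    eB c0 X s1 x1 y1 s2 x2 y2 1 u = 0 ∧ eB c0 X s1 x1 y1 s2 x2 y2 2 u = 0 ∧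
      eB c0 X s1 x1 y1 s2 x2 y2 3 u = 0 ∧ eB c0 X s1 x1 y1 s2 x2 y2 4 u = 0 :=
  ⟨pick_zero (a := s1) (b := fun _ => 0) hu, pick_zero (a := fun _ => 0) (b := s2) hu,
    pick_zero (a := x1) (b := x2) hu, pick_zero (a := y1) (b := y2) hu⟩

theorem OneOK.cases (h : OneOK c0 m G X) (u : V) :
    eB c0 X s1 x1 y1 s2 x2 y2 0 u = 0 ∨ eB c0 X s1 x1 y1 s2 x2 y2 0 u = 1 ∨
      eB c0 X s1 x1 y1 s2 x2 y2 0 u = 2 := by
  have := h.dig u
  change c0.d (X 0 u) = 0 ∨ c0.d (X 0 u) = 1 ∨ c0.d (X 0 u) = 2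
  omega

theorem OneOK.dconfB (h : OneOK c0 m G X)
    (h1 : Side (G 1) (G 2) (G 3) (sd c0 X 1) (fun u => wtD c0.n false (X 0 u)) s1 x1 y1)
    (h2 : Side (G 2) (G 1) (G 3) (sd c0 X 2) (fun u => wtD c0.n false (X 0 u)) s2 x2 y2)
    {F : List Fact} (hF : F.all twoF = true) :
    DConf [c0] m [] 3 5 twoR F G X (eB c0 X s1 x1 y1 s2 x2 y2) := by
  set e := eB c0 X s1 x1 y1 s2 x2 y2 with he
  have p1 : ∀ u, e 0 u = 1 → u ∈ sd c0 X 1 ∧ e 1 u = s1 u ∧ e 2 u = 0 ∧ e 3 u = x1 u ∧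
      e 4 u = y1 u := fun u hu => eB_one hu
  have p2 : ∀ u, e 0 u = 2 → u ∈ sd c0 X 2 ∧ e 1 u = 0 ∧ e 2 u = s2 u ∧ e 3 u = x2 u ∧
      e 4 u = y2 u := fun u hu => eB_two hu
  have p0 : ∀ u, e 0 u = 0 → e 1 u = 0 ∧ e 2 u = 0 ∧ e 3 u = 0 ∧ e 4 u = 0 :=
    fun u hu => eB_zero hu
  have hc : ∀ u, e 0 u = 0 ∨ e 0 u = 1 ∨ e 0 u = 2 := fun u => h.cases u
  have hlt : ∀ i < 5, ∀ u, e i u < 3 := by
    intro i hi u
    rcases hc u with hu | hu | hu
    · obtain ⟨a1, a2, a3, a4⟩ := p0 u hu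
      interval_cases i <;> omega
    · obtain ⟨_, a1, a2, a3, a4⟩ := p1 u hu
      have := h1.s12 u
      have := h1.x12 u
      have := h1.y12 u
      interval_cases i <;> omega
    · obtain ⟨_, a1, a2, a3, a4⟩ := p2 u hu
      have := h2.s12 u
      have := h2.x12 u
      have := h2.y12 u
      interval_cases i <;> omega
  refine ⟨h.conf, ?_, hlt, ?_, ?_⟩
  · intro i hi u
    have hi' : i < 1 := hi
    interval_cases i
    rfl
  · intro r hr u w huw hq
    unfold twoR at hr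
    simp only [List.mem_cons, List.not_mem_nil, or_false] at hr
    rcases hr with rfl | rfl | rfl | rfl | rfl | rfl
    · have q0 := hq 0 (by simp)
      have q1 := hq 1 (by simp)
      rcases hc u with hu | hu | hu
      · exact absurd hu q0.2
      · obtain ⟨mu, a1, a2, a3, a4⟩ := p1 u hu
        obtain ⟨mw, b1, b2, b3, b4⟩ := p1 w (q0.1.symm.trans hu)
        exact h1.rs u mu w mw (by rw [← a1, ← b1]; exact q1.1)
      · exact absurd (p2 u hu).2.1 q1.2
    · have q0 := hq 0 (by simp)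
      have q1 := hq 2 (by simp)
      rcases hc u with hu | hu | hu
      · exact absurd hu q0.2
      · exact absurd (p1 u hu).2.2.1 q1.2
      · obtain ⟨mu, a1, a2, a3, a4⟩ := p2 u hu
        obtain ⟨mw, b1, b2, b3, b4⟩ := p2 w (q0.1.symm.trans hu)
        exact h2.rs u mu w mw (by rw [← a2, ← b2]; exact q1.1)
    · have q0 := hq 0 (by simp)
      have q1 := hq 1 (by simp)
      have q2 := hq 3 (by simp)
      rcases hc u with hu | hu | hu
      · exact absurd hu q0.2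
      · obtain ⟨mu, a1, a2, a3, a4⟩ := p1 u hu
        obtain ⟨mw, b1, b2, b3, b4⟩ := p1 w (q0.1.symm.trans hu)
        exact h1.rx u mu w mw (by rw [← a1, ← b1]; exact q1.1) (by rw [← a3, ← b3]; exact q2.1)
      · exact absurd (p2 u hu).2.1 q1.2
    · have q0 := hq 0 (by simp)
      have q1 := hq 2 (by simp)
      have q2 := hq 3 (by simp)
      rcases hc u with hu | hu | hu
      · exact absurd hu q0.2
      · exact absurd (p1 u hu).2.2.1 q1.2
      · obtain ⟨mu, a1, a2, a3, a4⟩ := p2 u hu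
        obtain ⟨mw, b1, b2, b3, b4⟩ := p2 w (q0.1.symm.trans hu)
        exact h2.rx u mu w mw (by rw [← a2, ← b2]; exact q1.1) (by rw [← a3, ← b3]; exact q2.1)
    · have q0 := hq 0 (by simp)
      have q1 := hq 1 (by simp)
      have q2 := hq 4 (by simp)
      rcases hc u with hu | hu | hu
      · exact absurd hu q0.2
      · obtain ⟨mu, a1, a2, a3, a4⟩ := p1 u hu
        obtain ⟨mw, b1, b2, b3, b4⟩ := p1 w (q0.1.symm.trans hu)
        exact h1.ry u mu w mw (by rw [← a1, ← b1]; exact q1.1) (by rw [← a4, ← b4]; exact q2.1)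
      · exact absurd (p2 u hu).2.1 q1.2
    · have q0 := hq 0 (by simp)
      have q1 := hq 2 (by simp)
      have q2 := hq 4 (by simp)
      rcases hc u with hu | hu | hu
      · exact absurd hu q0.2
      · exact absurd (p1 u hu).2.2.1 q1.2
      · obtain ⟨mu, a1, a2, a3, a4⟩ := p2 u hu
        obtain ⟨mw, b1, b2, b3, b4⟩ := p2 w (q0.1.symm.trans hu)
        exact h2.ry u mu w mw (by rw [← a2, ← b2]; exact q1.1) (by rw [← a4, ← b4]; exact q2.1)
  · have hcode : ∀ u c, (codeOf 3 5 fun i => e i u) = c → ∀ i < 5, Place.dig 3 5 c i = e i u := by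
      rintro u c rfl i hi
      exact dig_codeOf 5 (fun i hi => hlt i hi u) i hi
    have hwt : ∀ a, wtD c0.n false a = a := by
      intro a
      unfold wtD
      rw [if_neg Bool.false_ne_true]
      split <;> rfl
    intro f hf
    rw [List.all_eq_true] at hF
    have hf1 := hF f hf
    cases f with
    | ord i c c' =>
      intro u w hu hw
      have du := hcode u c hu
      have dw := hcode w c' hw
      unfold twoF at hf1
      simp only [Bool.and_eq_true, Bool.or_eq_true, Nat.beq_eq] at hf1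
      rw [du 0 (by norm_num), du 1 (by norm_num), du 2 (by norm_num), du 3 (by norm_num),
        du 4 (by norm_num), dw 0 (by norm_num), dw 1 (by norm_num), dw 2 (by norm_num)] at hf1
      obtain ⟨rfl, q3, q4, hq⟩ := hf1
      rcases hq with ⟨qu, qw, q⟩ | ⟨qu, qw, q⟩
      · obtain ⟨mu, a1, a2, a3, a4⟩ := p1 u qu
        obtain ⟨mw, b1, b2, b3, b4⟩ := p1 w qw
        have h8 : wtD c0.n false (X 0 u) ≤ wtD c0.n false (X 0 w) := by
          rcases q with q | q
          · exact h1.o1 u mu w mw (by rw [← a1, ← b1]; exact q) (by rw [← a3]; exact q3)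
              (by rw [← a4]; exact q4)
          · exact h1.o2 u mu w mw (by rw [← a1]; exact q) (by rw [← a3]; exact q3)
              (by rw [← a4]; exact q4)
        rw [hwt, hwt] at h8
        exact h8
      · obtain ⟨mu, a1, a2, a3, a4⟩ := p2 u qu
        obtain ⟨mw, b1, b2, b3, b4⟩ := p2 w qw
        have h8 : wtD c0.n false (X 0 u) ≤ wtD c0.n false (X 0 w) := by
          rcases q with q | q
          · exact h2.o1 u mu w mw (by rw [← a2, ← b2]; exact q) (by rw [← a3]; exact q3)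
              (by rw [← a4]; exact q4)
          · exact h2.o2 u mu w mw (by rw [← a2]; exact q) (by rw [← a3]; exact q3)
              (by rw [← a4]; exact q4)
        rw [hwt, hwt] at h8
        exact h8
    | edge j c c' => exact absurd hf1 (by unfold twoF; exact Bool.false_ne_true)
    | lim i c ls => exact absurd hf1 (by unfold twoF; exact Bool.false_ne_true)

theorem OneOK.patsB (hV : Fintype.card V = 17) (h : OneOK c0 m G X)
    (h1 : Side (G 1) (G 2) (G 3) (sd c0 X 1) (fun u => wtD c0.n false (X 0 u)) s1 x1 y1)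
    (h2 : Side (G 2) (G 1) (G 3) (sd c0 X 2) (fun u => wtD c0.n false (X 0 u)) s2 x2 y2) :
    ∀ x ∈ twoPats, x.2.1 ≤ (univ.filter fun u => ∀ y ∈ x.1,
        eB c0 X s1 x1 y1 s2 x2 y2 y.1 u = y.2).card ∧
      (univ.filter fun u => ∀ y ∈ x.1, eB c0 X s1 x1 y1 s2 x2 y2 y.1 u = y.2).card ≤ x.2.2 := by
  set e := eB c0 X s1 x1 y1 s2 x2 y2 with he
  have p1 : ∀ u, e 0 u = 1 → u ∈ sd c0 X 1 ∧ e 1 u = s1 u ∧ e 2 u = 0 ∧ e 3 u = x1 u ∧
      e 4 u = y1 u := fun u hu => eB_one hu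
  have p2 : ∀ u, e 0 u = 2 → u ∈ sd c0 X 2 ∧ e 1 u = 0 ∧ e 2 u = s2 u ∧ e 3 u = x2 u ∧
      e 4 u = y2 u := fun u hu => eB_two hu
  have p0 : ∀ u, e 0 u = 0 → e 1 u = 0 ∧ e 2 u = 0 ∧ e 3 u = 0 ∧ e 4 u = 0 :=
    fun u hu => eB_zero hu
  intro x hx
  unfold twoPats at hx
  simp only [List.mem_cons, List.mem_append, List.mem_flatMap, List.mem_map, List.not_mem_nil,
    or_false] at hx
  rcases hx with rfl | rfl | ⟨p, hp, rfl⟩ | ⟨p, hp, s, hs, rfl⟩ |
    ⟨p, hp, s, hs, b, hb, t, ht, rfl⟩ | ⟨i, hi, d, hd, rfl⟩ | ⟨p, hp, i, hi, rfl⟩ |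
    ⟨p, hp, d, hd, rfl⟩
  · have e1 : (univ.filter fun u : V => ∀ y ∈ ([] : List (ℕ × ℕ)), e y.1 u = y.2) = univ := by
      apply Finset.filter_true_of_mem
      intro u _ y hy
      exact absurd hy (List.not_mem_nil)
    rw [e1, Finset.card_univ, hV]
    exact ⟨le_rfl, le_rfl⟩
  · simp only [List.mem_singleton, forall_eq]
    have := h.one
    exact ⟨this.ge, this.le⟩
  · simp only [List.mem_singleton, forall_eq]
    have := h.c8 p hp
    exact ⟨this.ge, this.le⟩
  · have e1 : (univ.filter fun u : V => ∀ y ∈ ([(0, p), (p, s)] : List (ℕ × ℕ)),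
        e y.1 u = y.2) = univ.filter fun u => e 0 u = p ∧ e p u = s := by
      apply Finset.filter_congr
      intro u _
      simp only [List.mem_cons, List.not_mem_nil, or_false, forall_eq_or_imp, forall_eq]
    rw [e1]
    have e2 : (univ.filter fun u : V => e 0 u = p ∧ e p u = s).card = 4 := by
      rcases hp with rfl | rfl
      · rw [← h1.c4 s hs]
        congr 1
        ext u
        rw [mem_filter, mem_filter]
        constructor
        · rintro ⟨_, a, b⟩
          obtain ⟨mu, a1, _⟩ := p1 u a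
          exact ⟨mu, by rw [← a1, b]⟩
        · rintro ⟨mu, b⟩
          have a : e 0 u = 1 := mem_sd.1 mu
          obtain ⟨_, a1, _⟩ := p1 u a
          exact ⟨mem_univ _, a, by rw [a1, b]⟩
      · rw [← h2.c4 s hs]
        congr 1
        ext u
        rw [mem_filter, mem_filter]
        constructor
        · rintro ⟨_, a, b⟩
          obtain ⟨mu, _, a1, _⟩ := p2 u a
          exact ⟨mu, by rw [← a1, b]⟩
        · rintro ⟨mu, b⟩
          have a : e 0 u = 2 := mem_sd.1 mu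
          obtain ⟨_, _, a1, _⟩ := p2 u a
          exact ⟨mem_univ _, a, by rw [a1, b]⟩
    exact ⟨e2.ge, e2.le⟩
  · refine ⟨Nat.zero_le _, ?_⟩
    rw [Finset.card_le_one]
    intro u hu w hw
    rw [mem_filter] at hu hw
    simp only [List.mem_cons, List.not_mem_nil, or_false, forall_eq_or_imp, forall_eq] at hu hw
    obtain ⟨_, a0, a1, a2, a3⟩ := hu
    obtain ⟨_, b0, b1, b2, b3⟩ := hw
    rcases hp with rfl | rfl
    · obtain ⟨mu, u1, u2, u3, u4⟩ := p1 u a0
      obtain ⟨mw, w1, w2, w3, w4⟩ := p1 w b0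
      exact h1.inj u mu w mw (by rw [← u1, ← w1, a1, b1]) (by rw [← u3, ← w3, a2, b2])
        (by rw [← u4, ← w4, a3, b3])
    · obtain ⟨mu, u1, u2, u3, u4⟩ := p2 u a0
      obtain ⟨mw, w1, w2, w3, w4⟩ := p2 w b0
      exact h2.inj u mu w mw (by rw [← u2, ← w2, a1, b1]) (by rw [← u3, ← w3, a2, b2])
        (by rw [← u4, ← w4, a3, b3])
  · refine ⟨Nat.zero_le _, ?_⟩
    rw [Nat.le_zero, Finset.card_eq_zero, Finset.filter_eq_empty_iff]
    intro u _ hu
    simp only [List.mem_cons, List.not_mem_nil, or_false, forall_eq_or_imp, forall_eq] at hu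
    have := p0 u hu.1
    rcases hi with rfl | rfl | rfl | rfl <;> omega
  · refine ⟨Nat.zero_le _, ?_⟩
    rw [Nat.le_zero, Finset.card_eq_zero, Finset.filter_eq_empty_iff]
    intro u _ hu
    simp only [List.mem_cons, List.not_mem_nil, or_false, forall_eq_or_imp, forall_eq] at hu
    rcases hp with rfl | rfl
    · have := p1 u hu.1
      have := h1.s12 u
      have := h1.x12 u
      have := h1.y12 u
      rcases hi with rfl | rfl | rfl <;> omega
    · have := p2 u hu.1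
      have := h2.s12 u
      have := h2.x12 u
      have := h2.y12 u
      rcases hi with rfl | rfl | rfl <;> omega
  · refine ⟨Nat.zero_le _, ?_⟩
    rw [Nat.le_zero, Finset.card_eq_zero, Finset.filter_eq_empty_iff]
    intro u _ hu
    simp only [List.mem_cons, List.not_mem_nil, or_false, forall_eq_or_imp, forall_eq] at hu
    rcases hp with rfl | rfl
    · have h3 : e 2 u = d := hu.2
      have := p1 u hu.1
      omega
    · have h3 : e 1 u = d := hu.2
      have := p2 u hu.1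
      omega

end

/-- all checks for a family with one coded class, different classes bipartite on the two sides -/
def famBt (T : Spec2) (c0 : CD) (m : Fin 4 → ℕ) (F : List Fact)
    (inst : List (List InstX)) : Bool :=
  famD T [c0] m [] 3 5 twoR F inst && (T.pats.all (fun x => decide (x ∈ twoPats)) &&
  F.all twoF)

theorem OneOK.exists_instB {T : Spec2} {c0 : CD} {m : Fin 4 → ℕ}
    {F : List Fact} {inst : List (List InstX)} (hF : famBt T c0 m F inst = true)
    (hV : Fintype.card V = 17) {G : Fin 4 → SimpleGraph V} {X : ℕ → V → ℕ}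
    (h : OneOK c0 m G X)
    (h1 : ∃ s x y, Side (G 1) (G 2) (G 3) (sd c0 X 1) (fun u => wtD c0.n false (X 0 u)) s x y)
    (h2 : ∃ s x y, Side (G 2) (G 1) (G 3) (sd c0 X 2) (fun u => wtD c0.n false (X 0 u)) s x y) :
    ∃ Is ∈ inst, ∃ J ∈ Is, ∃ M, IsModelX J M := by
  unfold famBt at hF
  simp only [Bool.and_eq_true] at hF
  obtain ⟨hF, hpats, hfact⟩ := hF
  obtain ⟨s1, x1, y1, h1⟩ := h1
  obtain ⟨s2, x2, y2, h2⟩ := h2
  rw [List.all_eq_true] at hpats
  refine DConf.exists_inst hF hV (h.dconfB h1 h2 hfact) ?_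
  intro x hx
  exact h.patsB hV h1 h2 x (of_decide_eq_true (hpats x hx))

end Pool.Agent.Work.MP_92a29d_co.Place
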