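import Pool.Agent.Work.MP_92a29d_co_h36.OneConf

/-!
Independent sets with eight vertices of one class when the three other classes have no odd closed
walk of length at most five: one of these classes is bipartite on the set.
-/

namespace Pool.Agent.Work.MP_92a29d_co.Place

open SimpleGraph Finset Pool.Agent.Work.MP_92a29d_co_h45

section

variable {V : Type*} [DecidableEq V]

/-- a graph with no odd closed walk of length at most five has a 2-colouring on a set of eight
vertices or at most nine edges there -/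
theorem bip_or (G : SimpleGraph V) (C : Finset V) (hC : C.card = 8)
    (hg : ∀ v (p : G.Walk v v), Odd p.length → 2 * 2 + 1 < p.length) :
    (∃ b : V → Bool, ∀ u ∈ C, ∀ w ∈ C, G.Adj u w → b u ≠ b w) ∨
      ∑ u ∈ C, ∑ w ∈ C, ind G u w ≤ 18 := by
  classical
  let H : SimpleGraph {v : V // v ∈ C} := G.comap Subtype.val
  have hcard : Fintype.card {v : V // v ∈ C} = 8 := by
    rw [Fintype.card_coe, hC]
  by_cases hcol : H.Colorable 2
  · left
    obtain ⟨col⟩ := hcol
    refine ⟨fun v => if h : v ∈ C then decide (col ⟨v, h⟩ = 0) else false, ?_⟩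
    intro u hu w hw huw
    have h1 : col ⟨u, hu⟩ ≠ col ⟨w, hw⟩ := col.valid (v := ⟨u, hu⟩) (w := ⟨w, hw⟩) huw
    simp only
    rw [dif_pos hu, dif_pos hw]
    intro h2
    rw [decide_eq_decide] at h2
    have h3 : ∀ x y : Fin 2, (x = 0 ↔ y = 0) → x = y := by decide
    exact h1 (h3 _ _ h2)
  · right
    rw [two_colorable_iff_forall_loop_even] at hcol
    push Not at hcol
    obtain ⟨v, p, hp⟩ := hcol
    obtain ⟨g, c, h, hg7⟩ := exists_shortOdd (G := H) ⟨v, p, Nat.not_even_iff_odd.1 (by
      simpa using hp)⟩ (m := 2)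
      (by norm_num) (fun v q hq => by
        have := hg _ (q.map (SimpleGraph.Hom.comap Subtype.val G)) (by
          rw [Walk.length_map]; exact hq)
        rw [Walk.length_map] at this
        exact this)
    have : NeZero g := ⟨by omega⟩
    have h1 := h.sum_le
    have h2 := h.le_card
    rw [hcard] at h1 h2
    have h7 : g = 7 := by
      obtain ⟨k, hk⟩ := h.odd
      omega
    subst h7
    have e : ∑ v, ∑ w, ind H v w = ∑ u ∈ C, ∑ w ∈ C, ind G u w := by
      rw [← Finset.sum_coe_sort C (fun u => ∑ w ∈ C, ind G u w)]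
      apply Finset.sum_congr rfl
      intro v _
      rw [← Finset.sum_coe_sort C (fun w => ind G v w)]
      rfl
    rw [e] at h1
    omega

variable [Fintype V]

theorem exists_bip8 {m : Fin 4 → ℕ} {G : Fin 4 → SimpleGraph V} (hcov : Cover V m G)
    (hm : ∀ i, i ≠ 0 → 2 ≤ m i) (C : Finset V) (hC : C.card = 8)
    (hind : ∀ u ∈ C, ∀ w ∈ C, ¬ (G 0).Adj u w) :
    ∃ k : Fin 4, k ≠ 0 ∧ ∃ b : V → Bool, ∀ u ∈ C, ∀ w ∈ C, (G k).Adj u w → b u ≠ b w := by
  classical
  by_contra hcon
  have h : ∀ i : Fin 4, i ≠ 0 → ∑ u ∈ C, ∑ w ∈ C, ind (G i) u w ≤ 18 := by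
    intro i hi
    rcases bip_or (G i) C hC (fun v p hp => by
      have := hcov.girth i v p hp
      have := hm i hi
      omega) with h1 | h1
    · exact absurd ⟨i, hi, h1⟩ hcon
    · exact h1
  have h1 := h 1 (by decide)
  have h2 := h 2 (by decide)
  have h3 := h 3 (by decide)
  have h4 : ∀ u ∈ C, 7 ≤ ∑ w ∈ C, (ind (G 1) u w + ind (G 2) u w + ind (G 3) u w) := by
    intro u hu
    have h5 : (C.erase u).card = 7 := by
      rw [Finset.card_erase_of_mem hu, hC]
    rw [← h5, Finset.card_eq_sum_ones]
    refine (Finset.sum_le_sum ?_).trans (Finset.sum_le_sum_of_subset (Finset.erase_subset u C))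
    intro w hw
    rw [Finset.mem_erase] at hw
    obtain ⟨i, hi⟩ := hcov.cov u w (Ne.symm hw.1)
    have h6 : ∀ j : Fin 4, (G j).Adj u w → ind (G j) u w = 1 := fun j hj => if_pos hj
    fin_cases i
    · exact absurd hi (hind u hu w hw.2)
    · have := h6 1 hi
      omega
    · have := h6 2 hi
      omega
    · have := h6 3 hi
      omega
  have h5 := Finset.sum_le_sum h4
  rw [Finset.sum_const, hC] at h5
  simp only [Finset.sum_add_distrib, smul_eq_mul] at h5
  omega

end

end Pool.Agent.Work.MP_92a29d_co.Place
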