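import Pool.Agent.Work.MP_92a29d_co_h45.six.Oct

/-!
Codes on one side: an independent set of eight vertices on which one class is bipartite.
-/

namespace Pool.Agent.Work.MP_92a29d_co.Place

open SimpleGraph Finset Pool.Agent.Work.MP_92a29d_co_h45

variable {V : Type*} [DecidableEq V]

/-- codes on a side `S`: `s` splits it by the class `Gk`, and `x`, `y` are the bits of the classes
`Ga`, `Gb` in the two halves -/
structure Side (Gk Ga Gb : SimpleGraph V) (S : Finset V) (wt : V → ℕ) (s x y : V → ℕ) : Prop where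
  s12 : ∀ u, s u = 1 ∨ s u = 2
  x12 : ∀ u, x u = 1 ∨ x u = 2
  y12 : ∀ u, y u = 1 ∨ y u = 2
  rs : ∀ u ∈ S, ∀ w ∈ S, s u = s w → ¬ Gk.Adj u w
  rx : ∀ u ∈ S, ∀ w ∈ S, s u = s w → x u = x w → ¬ Ga.Adj u w
  ry : ∀ u ∈ S, ∀ w ∈ S, s u = s w → y u = y w → ¬ Gb.Adj u w
  inj : ∀ u ∈ S, ∀ w ∈ S, s u = s w → x u = x w → y u = y w → u = w
  c4 : ∀ a, a = 1 ∨ a = 2 → (S.filter fun v => s v = a).card = 4
  o1 : ∀ u ∈ S, ∀ w ∈ S, s u = s w → x u = 1 → y u = 1 → wt u ≤ wt w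
  o2 : ∀ u ∈ S, ∀ w ∈ S, s u = 1 → x u = 1 → y u = 1 → wt u ≤ wt w

/-- a splitting digit from a 2-colouring -/
theorem digit_of_col (G : SimpleGraph V) (n : ℕ) (C : Finset V) (hC : C.card = 2 * n)
    (hb : ∃ b : V → Bool, ∀ u ∈ C, ∀ w ∈ C, G.Adj u w → b u ≠ b w)
    (hα : ∀ S ⊆ C, (∀ u ∈ S, ∀ w ∈ S, ¬ G.Adj u w) → S.card ≤ n) (v0 : V) :
    ∃ s : V → ℕ, (∀ u, s u = 1 ∨ s u = 2) ∧
      (∀ u ∈ C, ∀ w ∈ C, s u = s w → ¬ G.Adj u w) ∧
      (∀ a, a = 1 ∨ a = 2 → (C.filter fun v => s v = a).card = n) ∧ s v0 = 1 := by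
  classical
  obtain ⟨b, hb⟩ := hb
  have h1 : ∀ u, (if b u = b v0 then 1 else 2 : ℕ) = 1 ∨ (if b u = b v0 then 1 else 2 : ℕ) = 2 := by
    intro u
    split
    · exact Or.inl rfl
    · exact Or.inr rfl
  have h2 : ∀ u ∈ C, ∀ w ∈ C, (if b u = b v0 then 1 else 2 : ℕ) =
      (if b w = b v0 then 1 else 2 : ℕ) → ¬ G.Adj u w := by
    intro u hu w hw huw ha
    apply hb u hu w hw ha
    by_cases h3 : b u = b v0
    · rw [if_pos h3] at huw
      by_cases h4 : b w = b v0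
      · rw [h3, h4]
      · rw [if_neg h4] at huw
        exact absurd huw (by norm_num)
    · rw [if_neg h3] at huw
      by_cases h4 : b w = b v0
      · rw [if_pos h4] at huw
        exact absurd huw (by norm_num)
      · have h5 : ∀ x y z : Bool, ¬ x = z → ¬ y = z → x = y := by decide
        exact h5 _ _ _ h3 h4
  refine ⟨fun u => if b u = b v0 then 1 else 2, h1, h2, ?_, if_pos rfl⟩
  have hle : ∀ a, (C.filter fun v => (if b v = b v0 then 1 else 2 : ℕ) = a).card ≤ n := by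
    intro a
    refine hα _ (Finset.filter_subset _ _) ?_
    intro u hu w hw
    rw [mem_filter] at hu hw
    exact h2 u hu.1 w hw.1 (hu.2.trans hw.2.symm)
  have hsum : (C.filter fun v => (if b v = b v0 then 1 else 2 : ℕ) = 1).card +
      (C.filter fun v => (if b v = b v0 then 1 else 2 : ℕ) = 2).card = 2 * n := by
    rw [← hC, ← Finset.card_filter_add_card_filter_not (s := C)
      (fun v => (if b v = b v0 then 1 else 2 : ℕ) = 1)]
    congr 2
    ext v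
    rw [mem_filter, mem_filter]
    constructor
    · rintro ⟨h3, h4⟩
      exact ⟨h3, by rw [h4]; norm_num⟩
    · rintro ⟨h3, h4⟩
      exact ⟨h3, (h1 v).resolve_left h4⟩
  have h3 := hle 1
  have h4 := hle 2
  rintro a (rfl | rfl)
  · change (C.filter fun v => (if b v = b v0 then 1 else 2 : ℕ) = 1).card = n
    omega
  · change (C.filter fun v => (if b v = b v0 then 1 else 2 : ℕ) = 2).card = n
    omega

/-- the codes on a side -/
theorem exists_side (Gk Ga Gb : SimpleGraph V) (S : Finset V) (hS : S.card = 8)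
    (hb : ∃ b : V → Bool, ∀ u ∈ S, ∀ w ∈ S, Gk.Adj u w → b u ≠ b w)
    (hα : ∀ T ⊆ S, (∀ u ∈ T, ∀ w ∈ T, ¬ Gk.Adj u w) → T.card ≤ 4)
    (h2 : ∀ v (p : Ga.Walk v v), Odd p.length → 2 * 1 + 1 < p.length)
    (h3 : ∀ v (p : Gb.Walk v v), Odd p.length → 2 * 1 + 1 < p.length)
    (hcov : ∀ u ∈ S, ∀ w ∈ S, u ≠ w → Gk.Adj u w ∨ Ga.Adj u w ∨ Gb.Adj u w) (wt : V → ℕ) :
    ∃ s x y, Side Gk Ga Gb S wt s x y := by
  classical
  have hne : S.Nonempty := by
    rw [← Finset.card_pos, hS]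
    norm_num
  obtain ⟨v0, hv0, hmin⟩ := Finset.exists_min_image S wt hne
  obtain ⟨s, s1, s2, s3, s4⟩ := digit_of_col Gk 4 S hS hb hα v0
  have hbits : ∀ a, (a = 1 ∨ a = 2) → ∃ b t : V → ℕ,
      (∀ u, b u = 1 ∨ b u = 2) ∧ (∀ u, t u = 1 ∨ t u = 2) ∧
      (∀ u ∈ S.filter fun v => s v = a, ∀ w ∈ S.filter fun v => s v = a,
        b u = b w → ¬ Ga.Adj u w) ∧
      (∀ u ∈ S.filter fun v => s v = a, ∀ w ∈ S.filter fun v => s v = a,
        t u = t w → ¬ Gb.Adj u w) ∧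
      (∀ u ∈ S.filter fun v => s v = a, ∀ w ∈ S.filter fun v => s v = a,
        b u = b w → t u = t w → u = w) ∧
      ∃ v0 ∈ S.filter fun v => s v = a, b v0 = 1 ∧ t v0 = 1 ∧
        ∀ w ∈ S.filter fun v => s v = a, wt v0 ≤ wt w := by
    intro a ha
    have hne : (S.filter fun v => s v = a).Nonempty := by
      rw [← Finset.card_pos, s3 a ha]
      norm_num
    obtain ⟨v0, hv0, hmin⟩ := Finset.exists_min_image _ wt hne
    obtain ⟨b, t, b1, b2, b3, b4, b5, b6, b7⟩ := exists_bits4 Ga Gb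
      (S.filter fun v => s v = a) (s3 a ha) h2 h3
      (fun u hu w hw huw => by
        rw [mem_filter] at hu hw
        exact (hcov u hu.1 w hw.1 huw).resolve_left (s2 u hu.1 w hw.1 (hu.2.trans hw.2.symm)))
      v0
    exact ⟨b, t, b1, b2, b3, b4, b5, v0, hv0, b6, b7, hmin⟩
  choose! bb tt b1 b2 b3 b4 b5 b6 using hbits
  have hmem : ∀ u ∈ S, ∀ w ∈ S, s u = s w → w ∈ S.filter fun v => s v = s u := by
    intro u _ w hw h
    rw [mem_filter]
    exact ⟨hw, h.symm⟩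
  refine ⟨s, fun u => bb (s u) u, fun u => tt (s u) u, s1, fun u => b1 _ (s1 u) u,
    fun u => b2 _ (s1 u) u, s2, ?_, ?_, ?_, s3, ?_, ?_⟩
  · intro u hu w hw h1 h2
    refine b3 _ (s1 u) u (hmem u hu u hu rfl) w (hmem u hu w hw h1) ?_
    rw [h1] at h2 ⊢
    exact h2
  · intro u hu w hw h1 h2
    refine b4 _ (s1 u) u (hmem u hu u hu rfl) w (hmem u hu w hw h1) ?_
    rw [h1] at h2 ⊢
    exact h2
  · intro u hu w hw h1 h2 h3
    refine b5 _ (s1 u) u (hmem u hu u hu rfl) w (hmem u hu w hw h1) ?_ ?_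
    · rw [h1] at h2 ⊢
      exact h2
    · rw [h1] at h3 ⊢
      exact h3
  · intro u hu w hw h1 h2 h3
    obtain ⟨v1, hv1, c1, c2, c3⟩ := b6 _ (s1 u)
    have huv : u = v1 := by
      refine b5 _ (s1 u) u (hmem u hu u hu rfl) v1 hv1 ?_ ?_
      · rw [c1]; exact h2
      · rw [c2]; exact h3
    rw [huv]
    exact c3 w (hmem u hu w hw h1)
  · intro u hu w hw h1 h2 h3
    obtain ⟨v1, hv1, c1, c2, c3⟩ := b6 _ (s1 u)
    have huv : u = v1 := by
      refine b5 _ (s1 u) u (hmem u hu u hu rfl) v1 hv1 ?_ ?_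
      · rw [c1]; exact h2
      · rw [c2]; exact h3
    have h4 : wt u ≤ wt v0 := by
      rw [huv]
      refine c3 v0 ?_
      rw [mem_filter]
      exact ⟨hv0, by rw [s4, h1]⟩
    exact h4.trans (hmin w hw)

end Pool.Agent.Work.MP_92a29d_co.Place
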